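import Mathlib

set_option autoImplicit false

open Filter

namespace Pool.Agent.Results.MP_c0d803_al.Wreath

/-- Indexed grammars (Aho 1968), in the Hopcroft-Ullman form. -/
structure IndexedGrammar (T : Type) where
  NT : Type
  Idx : Type
  finNT : Finite NT
  finIdx : Finite Idx
  start : NT
  plain : List (NT × List (T ⊕ NT))
  push : List (NT × NT × Idx)
  pop : List (NT × Idx × List (T ⊕ NT))

/-- Every nonterminal of a right hand side receives the index string d. -/
def attach {T N I : Type} (d : List I) : T ⊕ N → T ⊕ (N × List I)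
  | Sum.inl a => Sum.inl a
  | Sum.inr B => Sum.inr (B, d)

/-- One derivation step between sentential forms. -/
def IndexedGrammar.Step {T : Type} (g : IndexedGrammar T)
    (u v : List (T ⊕ (g.NT × List g.Idx))) : Prop :=
  ∃ (p q : List (T ⊕ (g.NT × List g.Idx))) (A : g.NT) (d : List g.Idx),
    (∃ α, (A, α) ∈ g.plain ∧ u = p ++ [Sum.inr (A, d)] ++ q ∧ v = p ++ α.map (attach d) ++ q) ∨
    (∃ B f, (A, B, f) ∈ g.push ∧ u = p ++ [Sum.inr (A, d)] ++ q ∧
      v = p ++ [Sum.inr (B, f :: d)] ++ q) ∨
    (∃ f α, (A, f, α) ∈ g.pop ∧ u = p ++ [Sum.inr (A, f :: d)] ++ q ∧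
      v = p ++ α.map (attach d) ++ q)

/-- The language generated by an indexed grammar. -/
def IndexedGrammar.language {T : Type} (g : IndexedGrammar T) : Language T :=
  {w | Relation.ReflTransGen g.Step [Sum.inr (g.start, [])] (w.map Sum.inl)}

def IsIndexed {T : Type} (L : Language T) : Prop := ∃ g : IndexedGrammar T, g.language = L

/-- The group with generators T and relators the words of L. -/
abbrev Pres {T : Type} (L : Language T) : Type :=
  PresentedGroup {x : FreeGroup T | ∃ w ∈ L, x = (w.map FreeGroup.of).prod}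

theorem uniform {T G : Type} [Group G] (g : ContextFreeGrammar T) (h : ℕ → T → G)
    (hL : ∀ w ∈ g.language, ∀ᶠ M in atTop, (w.map (h M)).prod = 1) :
    ∀ᶠ M in atTop, ∀ w ∈ g.language, (w.map (h M)).prod = 1 := by
  classical
  let Pr : g.NT → Prop := fun X => ∃ w : List T, g.Derives [.nonterminal X] (w.map .terminal)
  let rep : g.NT → List T := fun X => if hX : Pr X then hX.choose else []
  have hrep : ∀ X, Pr X → g.Derives [.nonterminal X] ((rep X).map .terminal) := by
    intro X hX
    simp only [rep, dif_pos hX]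
    exact hX.choose_spec
  let sub1 : Symbol T g.NT → List T := fun s => match s with
    | .terminal a => [a]
    | .nonterminal X => rep X
  let sub : List (Symbol T g.NT) → List T := fun u => u.flatMap sub1
  let AllP : List (Symbol T g.NT) → Prop := fun u => ∀ X, Symbol.nonterminal X ∈ u → Pr X
  have lemA : ∀ u, AllP u → g.Derives u ((sub u).map .terminal) := by
    intro u
    induction u with
    | nil => intro _; exact ContextFreeGrammar.Derives.refl _
    | cons s u ih =>
      intro hu
      have h1 := ih (fun X hX => hu X (List.mem_cons_of_mem _ hX))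
      have h2 : g.Derives [s] ((sub1 s).map .terminal) := by
        cases s with
        | terminal a => exact ContextFreeGrammar.Derives.refl _
        | nonterminal X => exact hrep X (hu X List.mem_cons_self)
      have h3 := (h2.append_right u).trans (h1.append_left _)
      simpa [sub] using h3
  have lemB1 : ∀ u v, g.Produces u v → AllP v → AllP u := by
    rintro u v ⟨r, hr, hrw⟩ hv
    obtain ⟨p, q, rfl, rfl⟩ := hrw.exists_parts
    intro X hX
    simp only [List.mem_append, List.mem_singleton] at hX
    rcases hX with (hX | hX) | hX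
    · exact hv X (by simp [hX])
    · have : X = r.input := by injection hX
      subst this
      have h1 : AllP r.output := fun Y hY => hv Y (by simp [hY])
      exact ⟨sub r.output, ContextFreeGrammar.Produces.trans_derives
        ⟨r, hr, ContextFreeRule.Rewrites.input_output⟩ (lemA _ h1)⟩
    · exact hv X (by simp [hX])
  have lemB : ∀ u v, g.Derives u v → AllP v → AllP u := by
    intro u v huv hv
    induction huv with
    | refl => exact hv
    | tail _ h2 ih => exact ih (lemB1 _ _ h2 hv)
  have lemC : ∀ u, g.Derives [.nonterminal g.initial] u → AllP u →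
      ∀ᶠ M in atTop, ((sub u).map (h M)).prod = 1 := by
    intro u hu hp
    exact hL _ (hu.trans (lemA u hp))
  let Good : ContextFreeRule T g.NT → Prop := fun r => ∃ p q,
    g.Derives [.nonterminal g.initial] (p ++ [.nonterminal r.input] ++ q) ∧
      AllP (p ++ r.output ++ q)
  have lemD : ∀ r ∈ g.rules, ∀ᶠ M in atTop, Good r →
      ((rep r.input).map (h M)).prod = ((sub r.output).map (h M)).prod := by
    intro r hr
    by_cases hG : Good r
    · obtain ⟨p, q, h1, h2⟩ := hG
      have h3 : g.Produces (p ++ [.nonterminal r.input] ++ q) (p ++ r.output ++ q) :=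
        ⟨r, hr, ContextFreeRule.rewrites_of_exists_parts r p q⟩
      filter_upwards [lemC _ h1 (lemB1 _ _ h3 h2), lemC _ (h1.trans_produces h3) h2] with M e1 e2 _
      simp only [sub, List.flatMap_append, List.map_append, List.prod_append, List.flatMap_cons,
        List.flatMap_nil, List.append_nil, sub1] at e1 e2 ⊢
      exact mul_left_cancel (mul_right_cancel (e1.trans e2.symm))
    · exact Eventually.of_forall fun M h => absurd h hG
  have lemE : ∀ᶠ M in atTop, AllP [.nonterminal g.initial] →
      ((sub [.nonterminal g.initial]).map (h M)).prod = 1 := by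
    by_cases hp : AllP [.nonterminal g.initial]
    · filter_upwards [lemC _ (ContextFreeGrammar.Derives.refl _) hp] with M h _ using h
    · exact Eventually.of_forall fun M h => absurd h hp
  filter_upwards [(eventually_all_finset g.rules).2 lemD, lemE] with M hD hE w hw
  have key : ∀ u, g.Derives [.nonterminal g.initial] u → AllP u →
      ((sub u).map (h M)).prod = 1 := by
    intro u hu
    induction hu with
    | refl => exact hE
    | tail h1 h2 ih =>
      intro hp
      have h3 := ih (lemB1 _ _ h2 hp)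
      obtain ⟨r, hr, hrw⟩ := h2
      obtain ⟨p, q, rfl, rfl⟩ := hrw.exists_parts
      have h4 := hD r hr ⟨p, q, h1, hp⟩
      simp only [sub, List.flatMap_append, List.map_append, List.prod_append, List.flatMap_cons,
        List.flatMap_nil, List.append_nil, sub1] at h3 h4 ⊢
      rw [← h4]; exact h3
  have h1 := key _ hw (by intro X hX; simp at hX)
  have h2 : sub (w.map .terminal) = w := by
    simp only [sub]
    induction w with
    | nil => rfl
    | cons a w _ => simp [List.flatMap_map, sub1]
  rwa [h2] at h1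

def plainL : List (Fin 4 × List (Fin 4 ⊕ Fin 4)) := [(0, [.inl 0, .inl 1]), (0, [.inl 2, .inl 3]),
    (1, [.inl 0, .inr 2, .inl 0, .inr 3, .inl 1, .inr 2, .inl 1, .inr 3])]
def pushL : List (Fin 4 × Fin 4 × Bool) := [(0, 1, false), (1, 1, true)]
def popL : List (Fin 4 × Bool × List (Fin 4 ⊕ Fin 4)) :=
  [(2, true, [.inl 2, .inr 2]), (2, false, []), (3, true, [.inl 3, .inr 3]), (3, false, [])]

def gr : IndexedGrammar (Fin 4) where
  NT := Fin 4
  Idx := Bool
  finNT := inferInstance
  finIdx := inferInstance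
  start := 0
  plain := plainL
  push := pushL
  pop := popL

def St (u v : List (Fin 4 ⊕ (Fin 4 × List Bool))) : Prop :=
  ∃ (p q : List (Fin 4 ⊕ (Fin 4 × List Bool))) (A : Fin 4) (d : List Bool),
    (∃ α, (A, α) ∈ plainL ∧ u = p ++ [Sum.inr (A, d)] ++ q ∧ v = p ++ α.map (attach d) ++ q) ∨
    (∃ B f, (A, B, f) ∈ pushL ∧ u = p ++ [Sum.inr (A, d)] ++ q ∧
      v = p ++ [Sum.inr (B, f :: d)] ++ q) ∨
    (∃ f α, (A, f, α) ∈ popL ∧ u = p ++ [Sum.inr (A, f :: d)] ++ q ∧
      v = p ++ α.map (attach d) ++ q)

theorem mem_gr (w : List (Fin 4)) : w ∈ gr.language ↔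
    Relation.ReflTransGen St [Sum.inr (0, [])] (w.map Sum.inl) := Iff.rfl

def sh : Equiv.Perm ℤ := Equiv.addRight 1

def hh (M : ℕ) : Fin 4 → Equiv.Perm ℤ := ![Equiv.swap 0 M, Equiv.swap 0 M, sh, sh⁻¹]

def lead : List Bool → ℕ
  | true :: d => lead d + 1
  | _ => 0

def ev (M : ℕ) : Fin 4 ⊕ (Fin 4 × List Bool) → Equiv.Perm ℤ
  | .inl a => hh M a
  | .inr (X, d) => (![1, 1, sh ^ lead d, sh⁻¹ ^ lead d] : Fin 4 → Equiv.Perm ℤ) X

theorem sh_pow (n : ℕ) (x : ℤ) : (sh ^ n) x = x + n := by
  induction n with
  | zero => simp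
  | succ n ih => rw [pow_succ', Equiv.Perm.mul_apply, ih]; simp [sh]; ring

theorem conj_swap (M n : ℕ) : sh ^ n * Equiv.swap (0 : ℤ) M * sh⁻¹ ^ n
    = Equiv.swap (n : ℤ) (M + n) := by
  rw [inv_pow, ← Equiv.swap_apply_apply, sh_pow, sh_pow, zero_add]

def rel (M n : ℕ) : Equiv.Perm ℤ :=
  Equiv.swap (0 : ℤ) M * (sh ^ n * (Equiv.swap (0 : ℤ) M * (sh⁻¹ ^ n * (Equiv.swap (0 : ℤ) M *
    (sh ^ n * (Equiv.swap (0 : ℤ) M * sh⁻¹ ^ n))))))

theorem rel_eq (M n : ℕ) : rel M n = Equiv.swap (0 : ℤ) M * Equiv.swap (n : ℤ) (M + n) *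
    Equiv.swap (0 : ℤ) M * Equiv.swap (n : ℤ) (M + n) := by
  rw [← conj_swap, rel]; simp only [mul_assoc]

theorem rel_lt (M n : ℕ) (h : n < M) : rel M n = 1 := by
  rw [rel_eq]
  ext x
  simp only [Equiv.Perm.mul_apply, Equiv.swap_apply_def, Equiv.Perm.one_apply]
  split_ifs <;> omega

theorem rel_self (M : ℕ) (h : 0 < M) : rel M M ≠ 1 := by
  rw [rel_eq]
  intro h1
  have := congrArg (fun f : Equiv.Perm ℤ => f 0) h1
  simp only [Equiv.Perm.mul_apply, Equiv.swap_apply_def, Equiv.Perm.one_apply] at this
  split_ifs at this <;> omega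

theorem sound_step (u v : List (Fin 4 ⊕ (Fin 4 × List Bool))) (h : St u v) :
    ∀ᶠ M in atTop, (u.map (ev M)).prod = (v.map (ev M)).prod := by
  obtain ⟨p, q, A, d, h | h | h⟩ := h
  · obtain ⟨α, hm, rfl, rfl⟩ := h
    simp only [plainL, pushL, popL, List.mem_cons, Prod.mk.injEq, List.not_mem_nil, or_false] at hm
    rcases hm with ⟨rfl, rfl⟩ | ⟨rfl, rfl⟩ | ⟨rfl, rfl⟩
    · refine Eventually.of_forall fun M => ?_
      simp [ev, hh, attach]
    · refine Eventually.of_forall fun M => ?_
      simp [ev, hh, attach]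
    · filter_upwards [eventually_gt_atTop (lead d)] with M hM
      have := rel_lt M _ hM
      simp only [List.map_append, List.prod_append]
      congr 2
      simpa [ev, hh, attach, rel] using this.symm
  · obtain ⟨B, f, hm, rfl, rfl⟩ := h
    simp only [plainL, pushL, popL, List.mem_cons, Prod.mk.injEq, List.not_mem_nil, or_false] at hm
    rcases hm with ⟨rfl, rfl, rfl⟩ | ⟨rfl, rfl, rfl⟩
    all_goals
      refine Eventually.of_forall fun M => ?_
      simp [ev]
  · obtain ⟨f, α, hm, rfl, rfl⟩ := h
    simp only [plainL, pushL, popL, List.mem_cons, Prod.mk.injEq, List.not_mem_nil, or_false] at hm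
    rcases hm with ⟨rfl, rfl, rfl⟩ | ⟨rfl, rfl, rfl⟩ | ⟨rfl, rfl, rfl⟩ | ⟨rfl, rfl, rfl⟩
    all_goals
      refine Eventually.of_forall fun M => ?_
      simp [ev, hh, attach, lead, pow_succ', mul_assoc, -inv_pow]

theorem sound (w : List (Fin 4)) (hw : w ∈ gr.language) :
    ∀ᶠ M in atTop, (w.map (hh M)).prod = 1 := by
  have key : ∀ u, Relation.ReflTransGen St [Sum.inr (0, [])] u →
      ∀ᶠ M in atTop, (List.map (ev M) u).prod = 1 := by
    intro u hu
    induction hu with
    | refl => exact Eventually.of_forall fun M => by simp [ev]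
    | tail _ h2 ih =>
      filter_upwards [ih, sound_step _ _ h2] with M e1 e2
      rw [← e2]; exact e1
  filter_upwards [key _ ((mem_gr w).1 hw)] with M hM
  rw [List.map_map] at hM
  exact hM

theorem der_pop (X a : Fin 4) (h1 : (X, true, [Sum.inl a, Sum.inr X]) ∈ popL)
    (h2 : (X, false, []) ∈ popL) (n : ℕ) (p q : List (Fin 4 ⊕ (Fin 4 × List Bool))) :
    Relation.ReflTransGen St (p ++ [Sum.inr (X, List.replicate n true ++ [false])] ++ q)
      (p ++ List.replicate n (Sum.inl a) ++ q) := by
  induction n generalizing p with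
  | zero =>
    exact Relation.ReflTransGen.single ⟨p, q, X, [], Or.inr (Or.inr ⟨false, [], h2, rfl, rfl⟩)⟩
  | succ n ih =>
    refine Relation.ReflTransGen.head
      ⟨p, q, X, List.replicate n true ++ [false], Or.inr (Or.inr ⟨true, _, h1, rfl, rfl⟩)⟩ ?_
    have := ih (p ++ [Sum.inl a])
    simpa [attach, List.replicate_succ] using this

def word (n : ℕ) : List (Fin 4) :=
  [0] ++ List.replicate n 2 ++ [0] ++ List.replicate n 3 ++ [1] ++ List.replicate n 2 ++ [1]
    ++ List.replicate n 3

theorem word_mem (n : ℕ) : word n ∈ gr.language := by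
  have h1 : ∀ n, Relation.ReflTransGen St [Sum.inr (0, [])]
      [Sum.inr ((1 : Fin 4), List.replicate n true ++ [false])] := by
    intro n
    induction n with
    | zero =>
      exact Relation.ReflTransGen.single
        ⟨[], [], (0 : Fin 4), [], Or.inr (Or.inl ⟨(1 : Fin 4), false, by simp [pushL, popL], rfl, rfl⟩)⟩
    | succ n ih =>
      exact ih.tail ⟨[], [], (1 : Fin 4), _,
        Or.inr (Or.inl ⟨(1 : Fin 4), true, by simp [pushL, popL], rfl, rfl⟩)⟩
  let d := List.replicate n true ++ [false]
  have h2 : St [Sum.inr ((1 : Fin 4), d)]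
      [.inl 0, .inr ((2 : Fin 4), d), .inl 0, .inr ((3 : Fin 4), d), .inl 1,
        .inr ((2 : Fin 4), d), .inl 1, .inr ((3 : Fin 4), d)] :=
    ⟨[], [], (1 : Fin 4), d, Or.inl ⟨_, List.mem_cons_of_mem _ (List.mem_cons_of_mem _
      List.mem_cons_self), rfl, rfl⟩⟩
  have p2 := der_pop 2 2 (by simp [pushL, popL]) (by simp [pushL, popL]) n
  have p3 := der_pop 3 3 (by simp [pushL, popL]) (by simp [pushL, popL]) n
  have s1 := p2 [.inl 0] [.inl 0, .inr (3, d), .inl 1, .inr (2, d), .inl 1, .inr (3, d)]
  have s2 := p3 ([.inl 0] ++ List.replicate n (.inl 2) ++ [.inl 0])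
    [.inl 1, .inr (2, d), .inl 1, .inr (3, d)]
  have s3 := p2 ([.inl 0] ++ List.replicate n (.inl 2) ++ [.inl 0] ++ List.replicate n (.inl 3)
    ++ [.inl 1]) [.inl 1, .inr (3, d)]
  have s4 := p3 ([.inl 0] ++ List.replicate n (.inl 2) ++ [.inl 0] ++ List.replicate n (.inl 3)
    ++ [.inl 1] ++ List.replicate n (.inl 2) ++ [.inl 1]) []
  simp only [List.append_assoc, List.cons_append, List.nil_append, List.append_nil] at s1 s2 s3 s4
  have := ((((h1 n).tail h2).trans s1).trans s2).trans (s3.trans s4)
  rw [mem_gr]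
  simpa [word] using this

theorem word_val (M n : ℕ) : ((word n).map (hh M)).prod = rel M n := by
  simp [word, hh, rel]

theorem lift_word {T G : Type} [Group G] (φ : FreeGroup T →* G) (w : List T) :
    φ (w.map FreeGroup.of).prod = (w.map fun a => φ (FreeGroup.of a)).prod := by
  rw [map_list_prod, List.map_map]; rfl

/-- Some group with an indexed set of relators has no presentation with a context-free set
of relators over any finite alphabet. -/
theorem result : ∃ (T : Type) (_ : Finite T) (L : Language T), IsIndexed L ∧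
    ¬ ∃ (T' : Type) (_ : Finite T') (L' : Language T'), L'.IsContextFree ∧
      Nonempty (Pres L ≃* Pres L') := by
  refine ⟨Fin 4, inferInstance, gr.language, ⟨gr, rfl⟩, ?_⟩
  rintro ⟨T', _, _, ⟨g, rfl⟩, ⟨e⟩⟩
  let ρ : ℕ → FreeGroup (Fin 4) →* Equiv.Perm ℤ := fun M => FreeGroup.lift (hh M)
  let π : FreeGroup (Fin 4) →* Pres gr.language := PresentedGroup.mk _
  let π' : FreeGroup T' →* Pres g.language := PresentedGroup.mk _
  have hker : ∀ x, π x = 1 → ∀ᶠ M in atTop, ρ M x = 1 := by
    intro x hx
    rw [PresentedGroup.mk_eq_one_iff] at hx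
    let K : Subgroup (FreeGroup (Fin 4)) :=
      { carrier := {x | ∀ᶠ M in atTop, ρ M x = 1}
        one_mem' := Eventually.of_forall fun M => map_one _
        mul_mem' := fun {a b} ha hb => by
          filter_upwards [ha, hb] with M h1 h2
          rw [map_mul, h1, h2, mul_one]
        inv_mem' := fun {a} ha => by
          filter_upwards [ha] with M h1
          rw [map_inv, h1, inv_one] }
    have : K.Normal := ⟨fun a ha b => by
      filter_upwards [ha] with M h1
      rw [map_mul, map_mul, h1, mul_one, ← map_mul, mul_inv_cancel, map_one]⟩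
    refine Subgroup.normalClosure_le_normal (N := K) ?_ hx
    rintro _ ⟨w, hw, rfl⟩
    filter_upwards [sound w hw] with M hM
    rw [lift_word]
    simpa [ρ] using hM
  choose α0 hα0 using fun b : T' => PresentedGroup.mk_surjective _ (e.symm (π' (FreeGroup.of b)))
  let α : FreeGroup T' →* FreeGroup (Fin 4) := FreeGroup.lift α0
  have hα : ∀ y, π (α y) = e.symm (π' y) := by
    intro y
    have : π.comp α = e.symm.toMonoidHom.comp π' := by
      ext b
      simpa [α] using hα0 b
    exact DFunLike.congr_fun this y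
  choose β0 hβ0 using fun a : Fin 4 => PresentedGroup.mk_surjective _ (e (π (FreeGroup.of a)))
  have h1 : ∀ᶠ M in atTop, ∀ w ∈ g.language,
      (w.map fun b => ρ M (α (FreeGroup.of b))).prod = 1 := by
    apply uniform
    intro w hw
    have : π (α (w.map FreeGroup.of).prod) = 1 := by
      rw [hα, show π' (w.map FreeGroup.of).prod = 1 from PresentedGroup.one_of_mem ⟨w, hw, rfl⟩,
        map_one]
    filter_upwards [hker _ this] with M hM
    have h2 := lift_word ((ρ M).comp α) w
    exact h2.symm.trans hM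
  have h2 : ∀ᶠ M in atTop, ∀ a : Fin 4, ρ M (α (β0 a)) = ρ M (FreeGroup.of a) := by
    rw [eventually_all]
    intro a
    have : π (α (β0 a) * (FreeGroup.of a)⁻¹) = 1 := by
      rw [map_mul, map_inv, hα, show π' (β0 a) = _ from hβ0 a]
      simp
    filter_upwards [hker _ this] with M hM
    rwa [map_mul, map_inv, mul_inv_eq_one] at hM
  obtain ⟨M, hM1, hM2, hM3⟩ := (h1.and (h2.and (eventually_gt_atTop 0))).exists
  have hrel : ∀ r ∈ {x : FreeGroup T' | ∃ w ∈ g.language, x = (w.map FreeGroup.of).prod},
      FreeGroup.lift (fun b => ρ M (α (FreeGroup.of b))) r = 1 := by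
    rintro _ ⟨w, hw, rfl⟩
    rw [lift_word]
    simpa using hM1 w hw
  let ψ : Pres g.language →* Equiv.Perm ℤ := PresentedGroup.toGroup hrel
  have hψ : ∀ y, ψ (π' y) = ρ M (α y) := by
    intro y
    have : ψ.comp π' = (ρ M).comp α := by
      apply FreeGroup.ext_hom
      intro b
      exact PresentedGroup.toGroup.of hrel
    exact DFunLike.congr_fun this y
  have hfin : ∀ x, ψ (e (π x)) = ρ M x := by
    intro x
    have : (ψ.comp e.toMonoidHom).comp π = ρ M := by
      apply FreeGroup.ext_hom
      intro a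
      show ψ (e (π (FreeGroup.of a))) = _
      rw [← hβ0 a, ← hM2 a]
      exact hψ _
    exact DFunLike.congr_fun this x
  have h3 := hfin ((word M).map FreeGroup.of).prod
  rw [show π ((word M).map FreeGroup.of).prod = 1 from
    PresentedGroup.one_of_mem ⟨_, word_mem M, rfl⟩, map_one, map_one, lift_word] at h3
  apply rel_self M hM3
  rw [← word_val]
  simpa [ρ] using h3.symm

end Pool.Agent.Results.MP_c0d803_al.Wreath
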